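import Mathlib

/-!
# A small multiplier coprime to `N`
-/

namespace Pool.Agent.H78R3.Nad

open Finset

/-- The number of `t < L` such that `a + d t` is divisible by no element of `F`. -/
def cnt (F : Finset ℕ) (a d : ℤ) (L : ℕ) : ℕ :=
  ((range L).filter fun t : ℕ => ∀ p ∈ F, ¬ (p : ℤ) ∣ a + d * t).card

theorem cnt_insert (F : Finset ℕ) (q : ℕ) (hq : q.Prime) (a d : ℤ) (hd : IsCoprime d (q : ℤ))
    (L : ℕ) : ∃ (a' : ℤ) (L' : ℕ), |(L' : ℝ) - L / q| ≤ 1 ∧
      cnt (insert q F) a d L + cnt F a' (d * q) L' = cnt F a d L := by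
  classical
  have hq0 : 0 < q := hq.pos
  -- the class
  obtain ⟨t₀, ht₀, hdvd⟩ : ∃ t₀ : ℕ, t₀ < q ∧ (q : ℤ) ∣ a + d * t₀ := by
    obtain ⟨x, y, hxy⟩ := hd
    have h1 := Int.emod_nonneg (-(x * a)) (by exact_mod_cast hq0.ne' : (q : ℤ) ≠ 0)
    have h2 := Int.emod_lt_of_pos (-(x * a)) (by exact_mod_cast hq0 : (0 : ℤ) < q)
    refine ⟨((-(x * a)) % q).toNat, by omega, ?_⟩
    rw [Int.toNat_of_nonneg h1]
    have h3 := Int.mul_ediv_add_emod (-(x * a)) q
    refine ⟨a * y - d * (-(x * a) / q), ?_⟩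
    linear_combination (-a) * hxy + d * h3
  set L' : ℕ := (L - t₀ + (q - 1)) / q with hL'
  refine ⟨a + d * t₀, L', ?_, ?_⟩
  · have h1 : q * L' ≤ L - t₀ + (q - 1) := Nat.mul_div_le _ _
    have h2 : L - t₀ + (q - 1) < q * L' + q := Nat.lt_mul_div_succ _ hq0
    have h3 : q * L' ≤ L + q := by omega
    have h4 : L ≤ q * L' + q := by omega
    have h3' : (q : ℝ) * L' ≤ L + q := by exact_mod_cast h3
    have h4' : (L : ℝ) ≤ q * L' + q := by exact_mod_cast h4
    have hq' : (0 : ℝ) < q := by exact_mod_cast hq0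
    rw [abs_le]
    constructor
    · rw [neg_le_sub_iff_le_add, div_le_iff₀ hq']
      linarith
    · rw [sub_le_iff_le_add, ← sub_le_iff_le_add', le_div_iff₀ hq']
      linarith
  · have hiff : ∀ t : ℕ, (q : ℤ) ∣ a + d * t ↔ ∃ u : ℕ, t = t₀ + q * u := by
      intro t
      constructor
      · intro h
        have h1 : (q : ℤ) ∣ d * ((t : ℤ) - t₀) := by
          have := dvd_sub h hdvd
          rwa [show a + d * (t : ℤ) - (a + d * (t₀ : ℤ)) = d * ((t : ℤ) - t₀) by ring] at this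
        obtain ⟨w, hw⟩ := hd.symm.dvd_of_dvd_mul_left h1
        have hw0 : 0 ≤ w := by
          by_contra hneg
          push Not at hneg
          have hq' : (0 : ℤ) < q := by exact_mod_cast hq0
          have ht₀' : (t₀ : ℤ) < q := by exact_mod_cast ht₀
          have ht : (0 : ℤ) ≤ t := Int.natCast_nonneg t
          nlinarith
        refine ⟨w.toNat, ?_⟩
        have h2 : ((w.toNat : ℕ) : ℤ) = w := Int.toNat_of_nonneg hw0
        have h3 : (t : ℤ) = ((t₀ + q * w.toNat : ℕ) : ℤ) := by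
          push_cast
          rw [h2]
          linarith
        exact_mod_cast h3
      · rintro ⟨u, rfl⟩
        push_cast
        rw [show a + d * ((t₀ : ℤ) + q * u) = (a + d * t₀) + q * (d * u) by ring]
        exact dvd_add hdvd (Dvd.intro _ rfl)
    have hL'iff : ∀ u : ℕ, t₀ + q * u < L ↔ u < L' := by
      intro u
      rw [hL', Nat.lt_iff_add_one_le (m := u), Nat.le_div_iff_mul_le hq0]
      constructor
      · intro h
        have : (u + 1) * q = q * u + q := by ring
        omega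
      · intro h
        have : (u + 1) * q = q * u + q := by ring
        omega
    have h1 : cnt F (a + d * t₀) (d * q) L' =
        (((range L).filter fun t : ℕ => ∀ p ∈ F, ¬ (p : ℤ) ∣ a + d * t).filter
          fun t : ℕ => (q : ℤ) ∣ a + d * t).card := by
      unfold cnt
      refine Finset.card_bij (fun u _ => t₀ + q * u) ?_ ?_ ?_
      · intro u hu
        rw [mem_filter, mem_range] at hu
        rw [mem_filter, mem_filter, mem_range]
        refine ⟨⟨(hL'iff u).2 hu.1, fun p hp => ?_⟩, (hiff _).2 ⟨u, rfl⟩⟩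
        have := hu.2 p hp
        push_cast
        rwa [show a + d * ((t₀ : ℤ) + q * u) = a + d * t₀ + d * q * u by ring]
      · intro u _ u' _ h
        have h2 : q * u = q * u' := by omega
        exact Nat.eq_of_mul_eq_mul_left hq0 h2
      · intro t ht
        rw [mem_filter, mem_filter, mem_range] at ht
        obtain ⟨u, rfl⟩ := (hiff t).1 ht.2
        refine ⟨u, ?_, rfl⟩
        rw [mem_filter, mem_range]
        refine ⟨(hL'iff u).1 ht.1.1, fun p hp => ?_⟩
        have := ht.1.2 p hp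
        push_cast at this
        rwa [show a + d * ((t₀ : ℤ) + q * u) = a + d * t₀ + d * q * u by ring] at this
    have h2 : cnt (insert q F) a d L =
        (((range L).filter fun t : ℕ => ∀ p ∈ F, ¬ (p : ℤ) ∣ a + d * t).filter
          fun t : ℕ => ¬ (q : ℤ) ∣ a + d * t).card := by
      unfold cnt
      congr 1
      ext t
      simp only [mem_filter, mem_range, forall_mem_insert]
      tauto
    rw [h1, h2, add_comm]
    exact Finset.card_filter_add_card_filter_not _

/-- Legendre's sieve. -/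
theorem cnt_bound (F : Finset ℕ) (hF : ∀ p ∈ F, p.Prime) : ∀ (a d : ℤ) (L : ℕ),
    (∀ p ∈ F, IsCoprime d (p : ℤ)) →
    |(cnt F a d L : ℝ) - L * ∏ p ∈ F, (1 - 1 / (p : ℝ))| ≤ 2 ^ F.card - 1 := by
  classical
  induction F using Finset.induction_on with
  | empty =>
    intro a d L _
    simp [cnt]
  | insert q F hq ih =>
    intro a d L hd
    have hF' : ∀ p ∈ F, p.Prime := fun p hp => hF p (mem_insert_of_mem hp)
    have hqp := hF q (mem_insert_self _ _)
    obtain ⟨a', L', hL', hc⟩ := cnt_insert F q hqp a d (hd q (mem_insert_self _ _)) L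
    have h1 := ih hF' a d L (fun p hp => hd p (mem_insert_of_mem hp))
    have h2 := ih hF' a' (d * q) L' (fun p hp => by
      refine IsCoprime.mul_left (hd p (mem_insert_of_mem hp)) ?_
      rw [Nat.isCoprime_iff_coprime, Nat.coprime_primes hqp (hF' p hp)]
      rintro rfl
      exact hq hp)
    have hc' : (cnt (insert q F) a d L : ℝ) = cnt F a d L - cnt F a' (d * q) L' := by
      rw [← hc]; push_cast; ring
    rw [prod_insert hq, card_insert_of_notMem hq, hc']
    set P := ∏ p ∈ F, (1 - 1 / (p : ℝ)) with hP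
    have hterm : ∀ p ∈ F, 0 ≤ 1 - 1 / (p : ℝ) ∧ 1 - 1 / (p : ℝ) ≤ 1 := by
      intro p hp
      have h3 : (1 : ℝ) ≤ p := by exact_mod_cast (hF' p hp).one_lt.le
      have h4 : 1 / (p : ℝ) ≤ 1 := by rw [div_le_one (by linarith)]; exact h3
      have h5 : 0 ≤ 1 / (p : ℝ) := by positivity
      constructor <;> linarith
    have hP0 : 0 ≤ P := prod_nonneg fun p hp => (hterm p hp).1
    have hP1 : P ≤ 1 := prod_le_one (fun p hp => (hterm p hp).1) fun p hp => (hterm p hp).2
    have h3 : |((L' : ℝ) - L / q) * P| ≤ 1 := by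
      rw [abs_mul, abs_of_nonneg hP0]
      exact mul_le_one₀ hL' hP0 hP1
    have h4 : (cnt F a d L : ℝ) - cnt F a' (d * q) L' - L * ((1 - 1 / (q : ℝ)) * P) =
        ((cnt F a d L : ℝ) - L * P) - ((cnt F a' (d * q) L' : ℝ) - L' * P) -
          ((L' : ℝ) - L / q) * P := by ring
    rw [h4, pow_succ]
    rw [abs_le] at h1 h2 h3 ⊢
    constructor <;> linarith [h1.1, h1.2, h2.1, h2.2, h3.1, h3.2]

/-- A small multiplier that makes `g₂ + g₁ x` coprime to `N`. -/
theorem exists_mult (N : ℕ) (hN : N ≠ 0) (g₁ g₂ : ℤ) (h : IsCoprime g₁ g₂) :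
    ∃ x : ℕ, x + 1 ≤ 4 ^ N.primeFactors.card ∧ IsCoprime (g₂ + g₁ * x) N := by
  classical
  obtain ⟨F, hF⟩ : ∃ F : Finset ℕ, F = N.primeFactors.filter (fun p : ℕ => ¬ ((p : ℤ) ∣ g₁)) :=
    ⟨_, rfl⟩
  have hFp : ∀ p ∈ F, p.Prime := fun p hp => by
    rw [hF] at hp
    exact Nat.prime_of_mem_primeFactors (mem_filter.1 hp).1
  have hcop : ∀ p ∈ F, IsCoprime g₁ (p : ℤ) := fun p hp => by
    rw [hF] at hp
    have h1 := Nat.prime_iff_prime_int.1 (Nat.prime_of_mem_primeFactors (mem_filter.1 hp).1)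
    exact ((Prime.coprime_iff_not_dvd h1).2 (mem_filter.1 hp).2).symm
  have hb := cnt_bound F hFp g₂ g₁ (4 ^ F.card) hcop
  have hP : (1 / 2 : ℝ) ^ F.card ≤ ∏ p ∈ F, (1 - 1 / (p : ℝ)) := by
    rw [← prod_const]
    refine prod_le_prod (fun _ _ => by norm_num) fun p hp => ?_
    have h3 : (2 : ℝ) ≤ p := by exact_mod_cast (hFp p hp).two_le
    have h4 : 1 / (p : ℝ) ≤ 1 / 2 := one_div_le_one_div_of_le (by norm_num) h3
    linarith
  have hpos : 0 < cnt F g₂ g₁ (4 ^ F.card) := by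
    have h1 : (2 : ℝ) ^ F.card ≤ ((4 ^ F.card : ℕ) : ℝ) * ∏ p ∈ F, (1 - 1 / (p : ℝ)) := by
      calc (2 : ℝ) ^ F.card = 4 ^ F.card * (1 / 2) ^ F.card := by
            rw [← mul_pow]; norm_num
        _ ≤ _ := by
          push_cast
          gcongr
    rw [abs_le] at hb
    have h2 : (0 : ℝ) < cnt F g₂ g₁ (4 ^ F.card) := by linarith [hb.1]
    exact_mod_cast h2
  obtain ⟨x, hx⟩ := Finset.card_pos.1 hpos
  rw [mem_filter, mem_range] at hx
  refine ⟨x, ?_, ?_⟩
  · have h1 : F.card ≤ N.primeFactors.card := by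
      rw [hF]; exact Finset.card_filter_le _ _
    exact le_trans hx.1 (Nat.pow_le_pow_right (by norm_num) h1)
  · rw [Int.isCoprime_iff_gcd_eq_one]
    by_contra hne
    obtain ⟨p, hp, hpd⟩ := Nat.exists_prime_and_dvd hne
    have h1 : (p : ℤ) ∣ g₂ + g₁ * x := (Int.natCast_dvd_natCast.2 hpd).trans (Int.gcd_dvd_left ..)
    have h2 : (p : ℤ) ∣ (N : ℤ) := (Int.natCast_dvd_natCast.2 hpd).trans (Int.gcd_dvd_right ..)
    have h3 : p ∈ N.primeFactors := Nat.mem_primeFactors.2 ⟨hp, Int.natCast_dvd_natCast.1 h2, hN⟩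
    by_cases h4 : (p : ℤ) ∣ g₁
    · have h5 : (p : ℤ) ∣ g₂ := (dvd_add_left (Dvd.dvd.mul_right h4 _)).1 h1
      exact (Nat.prime_iff_prime_int.1 hp).not_isUnit (h.isUnit_of_dvd' h4 h5)
    · exact hx.2 p (by rw [hF]; exact mem_filter.2 ⟨h3, h4⟩) h1

end Pool.Agent.H78R3.Nad
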