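import Pool.Agent.H78R3.Nad.Defs
import Pool.Agent.H78R3.Nad.Sieve

/-!
# Average `N`-adic complexity of finite sequences: the lattices `f ≡ A g (mod N^n)`
-/

namespace Pool.Agent.H78R3.Nad

/-- Membership in the lattice `f ≡ A g (mod M)`. -/
def InL (M A : ℤ) (v : ℤ × ℤ) : Prop := M ∣ v.1 - A * v.2

/-- The maximum norm. -/
def nrm (v : ℤ × ℤ) : ℤ := max |v.1| |v.2|

theorem nrm_pos {v : ℤ × ℤ} (hv : v ≠ 0) : 1 ≤ nrm v := by
  unfold nrm
  by_contra h
  push Not at h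
  have h1 : |v.1| < 1 := lt_of_le_of_lt (le_max_left _ _) h
  have h2 : |v.2| < 1 := lt_of_le_of_lt (le_max_right _ _) h
  exact hv (Prod.ext (Int.abs_lt_one_iff.1 h1) (Int.abs_lt_one_iff.1 h2))

/-- Thue's lemma. -/
theorem thue (M : ℕ) (hM : 0 < M) (A : ℤ) : ∃ v : ℤ × ℤ, v ≠ 0 ∧ InL M A v ∧ nrm v ^ 2 ≤ M := by
  have : NeZero M := ⟨hM.ne'⟩
  set s := Nat.sqrt M with hs
  have hcard : Fintype.card (ZMod M) < Fintype.card (Fin (s + 1) × Fin (s + 1)) := by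
    rw [ZMod.card, Fintype.card_prod, Fintype.card_fin]
    exact Nat.lt_succ_sqrt M
  obtain ⟨x, y, hxy, h⟩ := Fintype.exists_ne_map_eq_of_card_lt
    (fun x : Fin (s + 1) × Fin (s + 1) => (((x.1 : ℕ) : ZMod M) - (A : ZMod M) * ((x.2 : ℕ) : ZMod M)))
    hcard
  refine ⟨(((x.1 : ℕ) : ℤ) - ((y.1 : ℕ) : ℤ), ((x.2 : ℕ) : ℤ) - ((y.2 : ℕ) : ℤ)), ?_, ?_, ?_⟩
  · intro h0
    have h1 := congrArg Prod.fst h0
    have h2 := congrArg Prod.snd h0
    simp only [Prod.fst_zero, Prod.snd_zero] at h1 h2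
    apply hxy
    apply Prod.ext
    · apply Fin.ext; omega
    · apply Fin.ext; omega
  · unfold InL
    rw [← ZMod.intCast_zmod_eq_zero_iff_dvd]
    push_cast
    linear_combination h
  · have b1 : |((x.1 : ℕ) : ℤ) - ((y.1 : ℕ) : ℤ)| ≤ s := by
      have := x.1.2; have := y.1.2
      rw [abs_le]; constructor <;> omega
    have b2 : |((x.2 : ℕ) : ℤ) - ((y.2 : ℕ) : ℤ)| ≤ s := by
      have := x.2.2; have := y.2.2
      rw [abs_le]; constructor <;> omega
    have b3 : nrm (((x.1 : ℕ) : ℤ) - ((y.1 : ℕ) : ℤ), ((x.2 : ℕ) : ℤ) - ((y.2 : ℕ) : ℤ)) ≤ s :=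
      max_le b1 b2
    have b4 : 0 ≤ nrm (((x.1 : ℕ) : ℤ) - ((y.1 : ℕ) : ℤ), ((x.2 : ℕ) : ℤ) - ((y.2 : ℕ) : ℤ)) :=
      le_max_of_le_left (abs_nonneg _)
    have b5 : ((s : ℤ)) ^ 2 ≤ M := by
      have := Nat.sqrt_le' M
      rw [← hs] at this
      exact_mod_cast this
    calc _ ≤ (s : ℤ) ^ 2 := pow_le_pow_left₀ b4 b3 2
      _ ≤ M := b5

/-- A shortest nonzero vector. -/
theorem exists_min (M : ℕ) (hM : 0 < M) (A : ℤ) : ∃ v : ℤ × ℤ, v ≠ 0 ∧ InL M A v ∧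
    nrm v ^ 2 ≤ M ∧ ∀ w : ℤ × ℤ, w ≠ 0 → InL M A w → nrm v ≤ nrm w := by
  classical
  obtain ⟨v₀, h0, h1, h2⟩ := thue M hM A
  have hex : ∃ k : ℕ, ∃ v : ℤ × ℤ, v ≠ 0 ∧ InL M A v ∧ nrm v = k :=
    ⟨(nrm v₀).toNat, v₀, h0, h1, (Int.toNat_of_nonneg (by have := nrm_pos h0; omega)).symm⟩
  obtain ⟨v, hv0, hv1, hv2⟩ := Nat.find_spec hex
  have hmin : ∀ w : ℤ × ℤ, w ≠ 0 → InL M A w → nrm v ≤ nrm w := by
    intro w hw0 hw1
    have hp := nrm_pos hw0
    have h3 := Nat.find_min' hex ⟨w, hw0, hw1, (Int.toNat_of_nonneg (by omega : 0 ≤ nrm w)).symm⟩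
    rw [hv2]
    omega
  refine ⟨v, hv0, hv1, ?_, hmin⟩
  have h3 := hmin v₀ h0 h1
  have h4 := nrm_pos hv0
  nlinarith

/-- Balanced remainders. -/
theorem balanced (x y : ℤ) (hy : y ≠ 0) : ∃ k : ℤ, 2 * |x + k * y| ≤ |y| := by
  have h1 := Int.emod_nonneg x hy
  have h2 := Int.emod_lt_abs x hy
  have h3 := Int.mul_ediv_add_emod x y
  rcases le_or_gt (2 * (x % y)) |y| with h | h
  · refine ⟨-(x / y), ?_⟩
    have : x + -(x / y) * y = x % y := by linear_combination -h3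
    rw [this, abs_of_nonneg h1]
    exact h
  · rcases lt_or_gt_of_ne hy with hn | hp
    · refine ⟨-(x / y) + 1, ?_⟩
      have : x + (-(x / y) + 1) * y = x % y + y := by linear_combination -h3
      rw [this]
      rw [abs_of_neg hn] at h h2 ⊢
      rw [abs_of_nonpos (by linarith)]
      linarith
    · refine ⟨-(x / y) - 1, ?_⟩
      have : x + (-(x / y) - 1) * y = x % y - y := by linear_combination -h3
      rw [this]
      rw [abs_of_pos hp] at h h2 ⊢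
      rw [abs_of_nonpos (by linarith)]
      linarith

/-- **The good vector.** -/
theorem exists_good (N n : ℕ) (hN : 2 ≤ N) (A : ℤ) : ∃ v : ℤ × ℤ, v ≠ 0 ∧
    InL ((N ^ n : ℕ) : ℤ) A v ∧
    (∀ w : ℤ × ℤ, w ≠ 0 → InL ((N ^ n : ℕ) : ℤ) A w → nrm v ≤ nrm w) ∧
    ∃ u : ℤ × ℤ, InL ((N ^ n : ℕ) : ℤ) A u ∧ IsCoprime u.2 N ∧
      2 * nrm v * nrm u ≤ (1 + 2 * 4 ^ N.primeFactors.card) * ((N ^ n : ℕ) : ℤ) := by
  obtain ⟨v, hv0, hvL, hv2, hmin⟩ := exists_min (N ^ n) (by positivity) A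
  refine ⟨v, hv0, hvL, hmin, ?_⟩
  set M : ℤ := ((N ^ n : ℕ) : ℤ) with hM
  have hMpos : 0 < M := by rw [hM]; positivity
  set m := nrm v with hm
  have hm1 : 1 ≤ m := nrm_pos hv0
  obtain ⟨t₁, ht₁⟩ := hvL
  -- primitivity
  have hprim : Int.gcd v.2 t₁ = 1 := by
    have hne : Int.gcd v.2 t₁ ≠ 0 := by
      intro h
      rw [Int.gcd_eq_zero_iff] at h
      apply hv0
      refine Prod.ext ?_ h.1
      rw [h.1, h.2] at ht₁
      simpa using ht₁
    obtain ⟨y, hy⟩ := Int.gcd_dvd_left (a := v.2) (b := t₁)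
    obtain ⟨t, ht⟩ := Int.gcd_dvd_right (a := v.2) (b := t₁)
    set e : ℤ := (Int.gcd v.2 t₁ : ℤ) with he
    have he0 : 0 < e := by rw [he]; exact_mod_cast Nat.pos_of_ne_zero hne
    have hf : v.1 = e * (A * y + M * t) := by
      rw [hy, ht] at ht₁
      linear_combination ht₁
    have hw0 : ((A * y + M * t, y) : ℤ × ℤ) ≠ 0 := by
      intro h0
      apply hv0
      have h1 := congrArg Prod.fst h0
      have h2 := congrArg Prod.snd h0
      simp only [Prod.fst_zero, Prod.snd_zero] at h1 h2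
      refine Prod.ext ?_ ?_
      · rw [hf, h1]; simp
      · rw [hy, h2]; simp
    have h1 := hmin _ hw0 ⟨t, by ring⟩
    have h2 : m = e * nrm (A * y + M * t, y) := by
      rw [hm]
      unfold nrm
      simp only
      rw [hf, abs_mul, abs_of_pos he0]
      conv_lhs => rw [hy, abs_mul, abs_of_pos he0]
      rw [mul_max_of_nonneg _ _ he0.le]
    have h3 := nrm_pos hw0
    have h4 : e ≤ 1 := by
      by_contra hcon
      push Not at hcon
      nlinarith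
    have h5 : e = 1 := by omega
    rw [he] at h5
    exact_mod_cast h5
  have hbez := Int.gcd_eq_gcd_ab v.2 t₁
  rw [hprim] at hbez
  push_cast at hbez
  set t₂ := Int.gcdA v.2 t₁ with ht₂
  set g₂ := -Int.gcdB v.2 t₁ with hg₂
  have hdet : v.2 * t₂ - t₁ * g₂ = 1 := by rw [hg₂]; linear_combination -hbez
  set f₂ := A * g₂ + M * t₂ with hf₂
  have hv1 : v.1 = A * v.2 + M * t₁ := by linear_combination ht₁
  have hD : v.1 * g₂ - v.2 * f₂ = -M := by
    rw [hv1, hf₂]; linear_combination (-M) * hdet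
  -- reduction
  obtain ⟨k, hk⟩ : ∃ k : ℤ, 2 * m * |f₂ + k * v.1| ≤ 3 * M ∧ 2 * m * |g₂ + k * v.2| ≤ 3 * M := by
    have hMm : m ^ 2 ≤ M := hv2
    rcases le_total |v.1| |v.2| with hle | hle
    · have hmv : m = |v.2| := max_eq_right hle
      have hv20 : v.2 ≠ 0 := by
        intro h; rw [h, abs_zero] at hmv; omega
      obtain ⟨k, hk⟩ := balanced g₂ v.2 hv20
      rw [← hmv] at hk
      refine ⟨k, ?_, ?_⟩
      · have h1 : v.2 * (f₂ + k * v.1) = v.1 * (g₂ + k * v.2) + M := by linear_combination -hD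
        have h2 : m * |f₂ + k * v.1| = |v.1 * (g₂ + k * v.2) + M| := by
          rw [← h1, abs_mul, ← hmv]
        have h3 := abs_add_le (v.1 * (g₂ + k * v.2)) M
        rw [abs_mul, abs_of_pos hMpos] at h3
        have h4 : |v.1| ≤ m := by rw [hmv]; exact hle
        have h5 := abs_nonneg (g₂ + k * v.2)
        have h6 : |v.1| * |g₂ + k * v.2| ≤ m * |g₂ + k * v.2| :=
          mul_le_mul_of_nonneg_right h4 h5
        nlinarith
      · nlinarith
    · have hmv : m = |v.1| := max_eq_left hle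
      have hv10 : v.1 ≠ 0 := by
        intro h; rw [h, abs_zero] at hmv; omega
      obtain ⟨k, hk⟩ := balanced f₂ v.1 hv10
      rw [← hmv] at hk
      refine ⟨k, ?_, ?_⟩
      · nlinarith
      · have h1 : v.1 * (g₂ + k * v.2) = v.2 * (f₂ + k * v.1) - M := by linear_combination hD
        have h2 : m * |g₂ + k * v.2| = |v.2 * (f₂ + k * v.1) - M| := by
          rw [← h1, abs_mul, ← hmv]
        have h3 := abs_sub (v.2 * (f₂ + k * v.1)) M
        rw [abs_mul, abs_of_pos hMpos] at h3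
        have h4 : |v.2| ≤ m := by rw [hmv]; exact hle
        have h5 := abs_nonneg (f₂ + k * v.1)
        have h6 : |v.2| * |f₂ + k * v.1| ≤ m * |f₂ + k * v.1| :=
          mul_le_mul_of_nonneg_right h4 h5
        nlinarith
  have hcop : IsCoprime v.2 (g₂ + k * v.2) := by
    refine ⟨t₂ + k * t₁, -t₁, ?_⟩
    linear_combination hdet
  obtain ⟨x, hx1, hx2⟩ := exists_mult N (by omega) v.2 (g₂ + k * v.2) hcop
  rw [show g₂ + k * v.2 + v.2 * (x : ℤ) = (x : ℤ) * v.2 + (g₂ + k * v.2) by ring] at hx2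
  refine ⟨((x : ℤ) * v.1 + (f₂ + k * v.1), (x : ℤ) * v.2 + (g₂ + k * v.2)), ?_, hx2, ?_⟩
  · refine ⟨(x : ℤ) * t₁ + (t₂ + k * t₁), ?_⟩
    simp only
    rw [hv1, hf₂]
    ring
  · have hMm : m ^ 2 ≤ M := hv2
    have hxr : (x : ℤ) + 1 ≤ 4 ^ N.primeFactors.card := by exact_mod_cast hx1
    have hx0 : (0 : ℤ) ≤ x := Int.natCast_nonneg x
    have key : ∀ y z : ℤ, |y| ≤ m → 2 * m * |z| ≤ 3 * M →
        2 * m * |(x : ℤ) * y + z| ≤ (1 + 2 * 4 ^ N.primeFactors.card) * M := by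
      intro y z hy hz
      have h1 := abs_add_le ((x : ℤ) * y) z
      rw [abs_mul, abs_of_nonneg hx0] at h1
      have h2 : (x : ℤ) * |y| ≤ x * m := mul_le_mul_of_nonneg_left hy hx0
      have h3 : (x : ℤ) * m * m ≤ x * M := by
        rw [mul_assoc, ← sq]
        exact mul_le_mul_of_nonneg_left hMm hx0
      have h4 : (x + 1 : ℤ) * M ≤ 4 ^ N.primeFactors.card * M :=
        mul_le_mul_of_nonneg_right hxr hMpos.le
      nlinarith
    have h1 := key v.1 _ (le_max_left _ _) hk.1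
    have h2 := key v.2 _ (le_max_right _ _) hk.2
    unfold nrm
    rcases max_choice |(x : ℤ) * v.1 + (f₂ + k * v.1)| |(x : ℤ) * v.2 + (g₂ + k * v.2)| with h | h
    · simp only [h]; exact h1
    · simp only [h]; exact h2

end Pool.Agent.H78R3.Nad
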