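import Pool.Agent.H78R3.Pi.Average
import Pool.Agent.H78R3.Nad.Vec

/-!
# Average `N`-adic complexity of finite sequences: counting
-/

namespace Pool.Agent.H78R3.Nad

open Finset Module PiAdic

/-- The integers. -/
noncomputable def dat (N : ℕ) (hN : 2 ≤ N) : Dat ℤ 1 N where
  b := Basis.singleton (Fin 1) ℤ
  p := N
  hb i := by
    rw [Basis.singleton_apply, Fin.eq_zero i]
    simp
  ε := 1
  hε := Or.inl rfl
  hp := by simp
  hN := hN
  hd := one_pos

theorem dat_ρ {N : ℕ} (hN : 2 ≤ N) (u : ℤ) : (dat N hN).ρ u = |(u : ℝ)| := by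
  have h : ∀ i : Fin 1, |(((dat N hN).b.repr u i : ℤ) : ℝ)| * (dat N hN).κ ^ (i : ℕ) = |(u : ℝ)| := by
    intro i
    rw [Fin.eq_zero i]
    simp [dat]
  apply le_antisymm
  · rw [(dat N hN).ρ_le_iff u (abs_nonneg _)]
    exact fun i => (h i).le
  · have := (dat N hN).coord_le u 0
    rwa [h 0] at this

theorem dat_card_ball {N : ℕ} (hN : 2 ≤ N) (T : ℕ) :
    ((dat N hN).ball ((T : ℝ) + (1 : ℕ) * (dat N hN).A * T)).card = 4 * T + 1 := by
  have hA : (dat N hN).A = 1 := by simp [Dat.A]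
  have h0 : (0 : ℝ) ≤ (T : ℝ) + (1 : ℕ) * (dat N hN).A * T := by rw [hA]; positivity
  have h1 := (dat N hN).card_ball h0
  rw [Fin.prod_univ_one] at h1
  simp only [Fin.val_zero, pow_zero, div_one] at h1
  rw [hA] at h1 ⊢
  have h2 : ⌊(T : ℝ) + (1 : ℕ) * 1 * T⌋ = 2 * T := by
    rw [show (T : ℝ) + (1 : ℕ) * 1 * T = ((2 * T : ℤ) : ℝ) by push_cast; ring, Int.floor_intCast]
  rw [h2] at h1
  have h3 : (((dat N hN).ball ((T : ℝ) + (1 : ℕ) * 1 * T)).card : ℝ) = ((4 * T + 1 : ℕ) : ℝ) := by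
    rw [h1]; push_cast; ring
  exact_mod_cast h3

/-- The number of sequences whose lattice has a vector of norm at most `T`. -/
theorem card_le_level {N : ℕ} (hN : 2 ≤ N) {n : ℕ} (m : (Fin n → Fin N) → ℤ)
    (hm : ∀ a, ∃ v : ℤ × ℤ, v ≠ 0 ∧ InL ((N ^ n : ℕ) : ℤ) ((dat N hN).ev a) v ∧ nrm v = m a)
    (T : ℕ) (hT : 1 ≤ T) : (univ.filter fun a => m a ≤ T).card ≤ 5 * T ^ 2 := by
  classical
  rcases le_or_gt (N ^ n) T with h | h
  · calc (univ.filter fun a => m a ≤ T).card ≤ (univ : Finset (Fin n → Fin N)).card :=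
        Finset.card_filter_le _ _
      _ = N ^ n := by simp
      _ ≤ T := h
      _ ≤ 5 * T ^ 2 := by nlinarith
  · set M : ℤ := ((N ^ n : ℕ) : ℤ) with hM
    have hTM : (T : ℤ) < M := by rw [hM]; exact_mod_cast h
    have hpM : (dat N hN).p ^ n = M := by rw [hM]; simp [dat]
    have hsub : (univ.filter fun a => m a ≤ T) ⊆ (Icc 1 T).biUnion (fun g : ℕ =>
        univ.filter (fun a : Fin n → Fin N => ∃ f : ℤ, |f| ≤ T ∧
          M ∣ f - (dat N hN).ev a * g)) := by
      intro a ha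
      rw [mem_filter] at ha
      obtain ⟨v, hv0, hvL, hvm⟩ := hm a
      have hle : nrm v ≤ T := by rw [hvm]; exact ha.2
      have h1 : |v.1| ≤ T := (le_max_left _ _).trans hle
      have h2 : |v.2| ≤ T := (le_max_right _ _).trans hle
      have hg0 : v.2 ≠ 0 := by
        intro h0
        apply hv0
        refine Prod.ext ?_ h0
        unfold InL at hvL
        rw [h0, mul_zero, sub_zero] at hvL
        exact Int.eq_zero_of_abs_lt_dvd hvL (lt_of_le_of_lt h1 hTM)
      rw [mem_biUnion]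
      refine ⟨v.2.natAbs, mem_Icc.2 ⟨Int.natAbs_pos.2 hg0, ?_⟩, ?_⟩
      · rw [Int.abs_eq_natAbs] at h2
        exact_mod_cast h2
      · rw [mem_filter]
        refine ⟨mem_univ _, ?_⟩
        rcases abs_cases v.2 with ⟨h3, -⟩ | ⟨h3, -⟩
        · refine ⟨v.1, h1, ?_⟩
          rw [Int.natCast_natAbs, h3]
          exact hvL
        · refine ⟨-v.1, by rw [abs_neg]; exact h1, ?_⟩
          rw [Int.natCast_natAbs, h3]
          rw [show -v.1 - (dat N hN).ev a * -v.2 = -(v.1 - (dat N hN).ev a * v.2) by ring]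
          exact (dvd_neg (α := ℤ)).2 hvL
    refine (Finset.card_le_card hsub).trans ?_
    refine (Finset.card_biUnion_le_card_mul _ _ (4 * T + 1) ?_).trans ?_
    · intro g hg
      rw [mem_Icc] at hg
      have hgT : (g : ℝ) ≤ T := by exact_mod_cast hg.2
      have h1 := (dat N hN).card_one n (X := (T : ℝ)) (by positivity) (g := (g : ℤ))
        (by exact_mod_cast (by omega : g ≠ 0)) (by
          rw [dat_ρ, Int.cast_natCast, Nat.abs_cast]; exact hgT)
      rw [dat_card_ball] at h1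
      rw [← Set.ncard_coe_finset]
      refine le_trans (le_of_eq ?_) h1
      congr 1
      ext a
      simp only [Finset.coe_filter, Finset.mem_univ, true_and, Set.mem_ofPred_eq]
      refine exists_congr fun f => ?_
      rw [dat_ρ, hpM, ← Int.cast_abs]
      refine and_congr ?_ Iff.rfl
      constructor
      · intro h; exact_mod_cast h
      · intro h; exact_mod_cast h
    · rw [Nat.card_Icc]
      have : T + 1 - 1 = T := by omega
      rw [this]
      nlinarith

theorem inv_le (m K : ℕ) (hm : 1 ≤ m) : (1 : ℝ) / m ≤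
    (∑ T ∈ range K, if m ≤ T + 1 then 1 / (((T : ℝ) + 1) * (T + 2)) else 0) + 1 / (K + 1) := by
  induction K with
  | zero =>
    have : (1 : ℝ) ≤ m := by exact_mod_cast hm
    simp only [range_zero, sum_empty, Nat.cast_zero, zero_add, div_one]
    rw [div_le_one (by linarith)]
    exact this
  | succ K ih =>
    rw [sum_range_succ]
    push_cast
    split_ifs with h
    · have h1 : (1 : ℝ) / (K + 1) = 1 / (((K : ℝ) + 1) * (K + 2)) + 1 / (K + 1 + 1) := by
        field_simp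
        ring
      linarith
    · have h1 : 0 ≤ ∑ T ∈ range K, if m ≤ T + 1 then 1 / (((T : ℝ) + 1) * (T + 2)) else 0 :=
        sum_nonneg fun T _ => by split_ifs <;> positivity
      have h2 : (K : ℝ) + 1 + 1 ≤ m := by exact_mod_cast (by omega : K + 1 + 1 ≤ m)
      have h3 : (1 : ℝ) / m ≤ 1 / (K + 1 + 1) := one_div_le_one_div_of_le (by positivity) h2
      linarith

/-- The sum of the inverses of the lengths of the shortest vectors. -/
theorem sum_inv_le {N : ℕ} (hN : 2 ≤ N) {n : ℕ} (m : (Fin n → Fin N) → ℤ)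
    (hm : ∀ a, ∃ v : ℤ × ℤ, v ≠ 0 ∧ InL ((N ^ n : ℕ) : ℤ) ((dat N hN).ev a) v ∧ nrm v = m a)
    (s : ℝ) (hs0 : 0 < s) (hs : s ^ 2 = (N : ℝ) ^ n) :
    ∑ a, 1 / (m a : ℝ) ≤ 9 / 2 * s := by
  classical
  have hm1 : ∀ a, 1 ≤ m a := fun a => by
    obtain ⟨v, hv0, -, hvm⟩ := hm a
    rw [← hvm]; exact nrm_pos hv0
  set K : ℕ := ⌊s / 2⌋₊ with hK
  have hK1 : (K : ℝ) ≤ s / 2 := Nat.floor_le (by positivity)
  have hK2 : s / 2 < K + 1 := Nat.lt_floor_add_one _
  have h1 : ∀ a, 1 / (m a : ℝ) ≤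
      (∑ T ∈ range K, if m a ≤ ((T + 1 : ℕ) : ℤ) then 1 / (((T : ℝ) + 1) * (T + 2)) else 0) +
        1 / (K + 1) := by
    intro a
    have h2 : (((m a).toNat : ℕ) : ℤ) = m a := Int.toNat_of_nonneg (by linarith [hm1 a])
    have h3 := inv_le (m a).toNat K (by have := hm1 a; omega)
    have h4 : (((m a).toNat : ℕ) : ℝ) = (m a : ℝ) := by
      rw [← Int.cast_natCast, h2]
    rw [h4] at h3
    refine h3.trans (le_of_eq ?_)
    congr 1
    refine sum_congr rfl fun T _ => ?_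
    have h5 : (m a).toNat ≤ T + 1 ↔ m a ≤ ((T + 1 : ℕ) : ℤ) := by omega
    simp only [h5]
  calc ∑ a, 1 / (m a : ℝ) ≤ ∑ a, ((∑ T ∈ range K,
        if m a ≤ ((T + 1 : ℕ) : ℤ) then 1 / (((T : ℝ) + 1) * (T + 2)) else 0) + 1 / (K + 1)) :=
        sum_le_sum fun a _ => h1 a
    _ = (∑ T ∈ range K, ∑ a, if m a ≤ ((T + 1 : ℕ) : ℤ) then 1 / (((T : ℝ) + 1) * (T + 2)) else 0)
        + (N : ℝ) ^ n / (K + 1) := by
      rw [sum_add_distrib, sum_comm, sum_const, Finset.card_univ, Fintype.card_fun,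
        Fintype.card_fin, Fintype.card_fin, nsmul_eq_mul]
      push_cast
      ring
    _ ≤ (∑ _T ∈ range K, 5) + 2 * s := by
      refine add_le_add (sum_le_sum fun T _ => ?_) ?_
      · rw [← sum_filter, sum_const, nsmul_eq_mul]
        have h2 := card_le_level hN m hm (T + 1) (by omega)
        have h3 : (((univ.filter fun a => m a ≤ ((T + 1 : ℕ) : ℤ)).card : ℕ) : ℝ) ≤
            5 * ((T : ℝ) + 1) ^ 2 := by exact_mod_cast h2
        rw [mul_one_div, div_le_iff₀ (by positivity)]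
        have hT : (0 : ℝ) ≤ T := Nat.cast_nonneg T
        nlinarith
      · rw [div_le_iff₀ (by positivity), ← hs]
        nlinarith
    _ = 5 * K + 2 * s := by rw [sum_const, card_range, nsmul_eq_mul]; ring
    _ ≤ 9 / 2 * s := by linarith

/-- The sum of the logarithms of the lengths of the shortest vectors. -/
theorem sum_log_ge {N : ℕ} (hN : 2 ≤ N) {n : ℕ} (m : (Fin n → Fin N) → ℤ)
    (hm : ∀ a, ∃ v : ℤ × ℤ, v ≠ 0 ∧ InL ((N ^ n : ℕ) : ℤ) ((dat N hN).ev a) v ∧ nrm v = m a) :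
    (N : ℝ) ^ n * ((n : ℝ) / 2 - Real.logb N (9 / 2)) ≤ ∑ a, Real.logb N (m a) := by
  have hN1 : (1 : ℝ) < N := by exact_mod_cast (by omega : 1 < N)
  have hN0 : (0 : ℝ) < N := by linarith
  have hlog : 0 < Real.log N := Real.log_pos hN1
  have hm1 : ∀ a, (1 : ℝ) ≤ m a := fun a => by
    obtain ⟨v, hv0, -, hvm⟩ := hm a
    rw [← hvm]; exact_mod_cast nrm_pos hv0
  set s : ℝ := Real.sqrt ((N : ℝ) ^ n) with hs
  have hs0 : 0 < s := Real.sqrt_pos.2 (by positivity)
  have hs2 : s ^ 2 = (N : ℝ) ^ n := Real.sq_sqrt (by positivity)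
  have hls : Real.log s = (n : ℝ) / 2 * Real.log N := by
    rw [hs, Real.log_sqrt (by positivity), Real.log_pow]
    ring
  have h1 := sum_inv_le hN m hm s hs0 hs2
  have h2 : ∀ a, Real.log s - Real.log (9 / 2) + 1 - s / (9 / 2) * (1 / (m a : ℝ)) ≤
      Real.log (m a) := by
    intro a
    have hma := hm1 a
    have hpos : 0 < s / (9 / 2 * m a) := by positivity
    have h3 := Real.log_le_sub_one_of_pos hpos
    rw [Real.log_div hs0.ne' (by positivity), Real.log_mul (by norm_num) (by positivity)] at h3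
    have h4 : s / (9 / 2) * (1 / (m a : ℝ)) = s / (9 / 2 * m a) := by
      field_simp
    rw [h4]
    linarith
  have hcard : ∀ c : ℝ, ∑ _a : Fin n → Fin N, c = (N : ℝ) ^ n * c := by
    intro c
    rw [Finset.sum_const, Finset.card_univ, Fintype.card_fun, Fintype.card_fin, Fintype.card_fin,
      nsmul_eq_mul]
    push_cast
    ring
  have h3 := Finset.sum_le_sum fun a (_ : a ∈ (Finset.univ : Finset (Fin n → Fin N))) => h2 a
  rw [Finset.sum_sub_distrib, hcard, ← Finset.mul_sum] at h3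
  have h4 : s / (9 / 2) * ∑ a, 1 / (m a : ℝ) ≤ (N : ℝ) ^ n := by
    calc s / (9 / 2) * ∑ a, 1 / (m a : ℝ) ≤ s / (9 / 2) * (9 / 2 * s) := by gcongr
      _ = (N : ℝ) ^ n := by rw [← hs2]; ring
  have h5 : (N : ℝ) ^ n * (Real.log s - Real.log (9 / 2)) ≤ ∑ a, Real.log (m a) := by linarith
  have h6 : ∑ a, Real.logb N (m a) = (∑ a, Real.log (m a)) / Real.log N := by
    rw [Finset.sum_div]
    rfl
  rw [h6, le_div_iff₀ hlog]
  refine le_trans (le_of_eq ?_) h5
  rw [hls, Real.logb]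
  field_simp

end Pool.Agent.H78R3.Nad
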