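import Mathlib

/-!
# Average `N`-adic complexity of finite sequences: definitions
-/

namespace Pool.Agent.H78R3.Nad

/-- The `N`-adic integer `∑ b_i N^i` of the sequence `b` is the rational number `f / g` in lowest
terms, `g > 0`: for every `n`, `f ≡ g (b_0 + b_1 N + … + b_{n-1} N^(n-1))` modulo `N^n`. -/
def IsRatio {N : ℕ} (b : ℕ → Fin N) (f g : ℤ) : Prop :=
  0 < g ∧ IsCoprime f g ∧
    ∀ n : ℕ, (N : ℤ) ^ n ∣ f - g * ∑ i ∈ Finset.range n, ((b i : ℕ) : ℤ) * (N : ℤ) ^ i

/-- The `N`-adic complexity of the finite sequence `a`: the least value of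
`log_N max(|f|, |g|)` over the infinite sequences `b` that start with `a` and whose `N`-adic
integer is a rational number `f / g` (in lowest terms). -/
noncomputable def finComplexity {N n : ℕ} (a : Fin n → Fin N) : ℝ :=
  sInf {x : ℝ | ∃ b : ℕ → Fin N, (∀ i : Fin n, b i = a i) ∧
    ∃ f g : ℤ, IsRatio b f g ∧ x = Real.logb N (max |(f : ℝ)| |(g : ℝ)|)}

/-- The average `E_n^fin` of the complexity over all `N^n` sequences of length `n`. -/
noncomputable def Efin (N n : ℕ) : ℝ := (∑ a : Fin n → Fin N, finComplexity a) / (N : ℝ) ^ n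

end Pool.Agent.H78R3.Nad
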