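import Pool.Agent.H78R3.Nad.Count

/-!
# Average `N`-adic complexity of finite sequences
-/

namespace Pool.Agent.H78R3.Nad

open Finset Module PiAdic

theorem nrm_cast (f g : ℤ) : max |(f : ℝ)| |(g : ℝ)| = ((nrm (f, g) : ℤ) : ℝ) := by
  unfold nrm
  push_cast
  rfl

/-- Bounds for one sequence. -/
theorem complexity_bounds {N : ℕ} (hN : 2 ≤ N) {n : ℕ} (a : Fin n → Fin N) : ∃ m : ℤ,
      (∃ v : ℤ × ℤ, v ≠ 0 ∧ InL ((N ^ n : ℕ) : ℤ) ((dat N hN).ev a) v ∧ nrm v = m) ∧
      Real.logb N m ≤ finComplexity a ∧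
      finComplexity a ≤ n - Real.logb N m + Real.logb N (1 / 2 + 4 ^ N.primeFactors.card) := by
  have hN1 : (1 : ℝ) < N := by exact_mod_cast (by omega : 1 < N)
  have hN0 : (0 : ℝ) < N := by linarith
  obtain ⟨v, hv0, hvL, hmin, u, huL, hu1, hu2⟩ := exists_good N n hN ((dat N hN).ev a)
  refine ⟨nrm v, ⟨v, hv0, hvL, rfl⟩, ?_⟩
  have hm1 := nrm_pos hv0
  have hm1' : (1 : ℝ) ≤ (nrm v : ℤ) := by exact_mod_cast hm1
  have hpM : (dat N hN).p ^ n = ((N ^ n : ℕ) : ℤ) := by simp [dat]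
  have hp : (dat N hN).p = (N : ℤ) := rfl
  -- lower bound for every element
  have hlb : ∀ x ∈ {x : ℝ | ∃ b : ℕ → Fin N, (∀ i : Fin n, b i = a i) ∧
      ∃ f g : ℤ, IsRatio b f g ∧ x = Real.logb N (max |(f : ℝ)| |(g : ℝ)|)},
      Real.logb N (nrm v) ≤ x := by
    rintro x ⟨b, hb, f, g, ⟨hg, -, hfg⟩, rfl⟩
    have h1 := hfg n
    have h2 := (dat N hN).ev_eq_range hb
    rw [hp] at h2
    rw [h2] at h1
    have h3 := hmin (f, g) (fun h => hg.ne' (congrArg Prod.snd h)) (by
      unfold InL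
      simp only
      rw [mul_comm]
      exact_mod_cast h1)
    rw [nrm_cast]
    exact Real.logb_le_logb_of_le hN1 (by linarith) (by exact_mod_cast h3)
  -- normalisation of `u`
  have hu20 : u.2 ≠ 0 := by
    intro h
    rw [h, isCoprime_zero_left, Int.isUnit_iff] at hu1
    omega
  obtain ⟨f, g, e, he0, hfg, hf, hg⟩ : ∃ f g e : ℤ, e ≠ 0 ∧ IsCoprime f g ∧ u.1 = f * e ∧
      u.2 = g * e := by
    have hpos : 0 < Int.gcd u.1 u.2 := Int.gcd_pos_of_ne_zero_right _ hu20
    obtain ⟨f, g, h1, h2, h3⟩ := Int.exists_gcd_one hpos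
    exact ⟨f, g, _, by exact_mod_cast hpos.ne', Int.isCoprime_iff_gcd_eq_one.2 h1, h2, h3⟩
  have hg0 : g ≠ 0 := by
    rintro rfl
    rw [zero_mul] at hg
    exact hu20 hg
  obtain ⟨f, g, e, he0, hfg, hf, hg, hgpos⟩ : ∃ f g e : ℤ, e ≠ 0 ∧ IsCoprime f g ∧ u.1 = f * e ∧
      u.2 = g * e ∧ 0 < g := by
    rcases lt_or_gt_of_ne hg0 with h | h
    · refine ⟨-f, -g, -e, neg_ne_zero.2 he0, hfg.neg_neg, ?_, ?_, by linarith⟩
      · rw [hf]; ring
      · rw [hg]; ring
    · exact ⟨f, g, e, he0, hfg, hf, hg, h⟩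
  have he1 : 1 ≤ |e| := Int.one_le_abs he0
  have hgN : IsCoprime g (N : ℤ) := by
    rw [hg] at hu1
    exact hu1.of_mul_left_left
  have heN : IsCoprime (((N ^ n : ℕ)) : ℤ) e := by
    rw [hg] at hu1
    push_cast
    exact (hu1.of_mul_left_right).symm.pow_left
  have hcong : (dat N hN).p ^ n ∣ f - (dat N hN).ev a * g := by
    rw [hpM]
    unfold InL at huL
    rw [hf, hg, show f * e - (dat N hN).ev a * (g * e) = (f - (dat N hN).ev a * g) * e by ring]
      at huL
    exact heN.dvd_of_dvd_mul_right huL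
  have hnle : nrm (f, g) ≤ nrm u := by
    unfold nrm
    simp only
    rw [hf, hg, abs_mul, abs_mul]
    exact max_le_max (le_mul_of_one_le_right (abs_nonneg _) he1)
      (le_mul_of_one_le_right (abs_nonneg _) he1)
  obtain ⟨b, hb, hexp⟩ := (dat N hN).exists_expansion (a := a) (f := f) (g := g) hgN hcong
  have hmem : Real.logb N (max |(f : ℝ)| |(g : ℝ)|) ∈
      {x : ℝ | ∃ b : ℕ → Fin N, (∀ i : Fin n, b i = a i) ∧
      ∃ f g : ℤ, IsRatio b f g ∧ x = Real.logb N (max |(f : ℝ)| |(g : ℝ)|)} :=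
    ⟨b, hb, f, g, ⟨hgpos, hfg, hexp⟩, rfl⟩
  constructor
  · exact le_csInf ⟨_, hmem⟩ hlb
  · refine (csInf_le ⟨_, hlb⟩ hmem).trans ?_
    rw [nrm_cast]
    have h1 : 1 ≤ nrm (f, g) := nrm_pos (fun h => hgpos.ne' (congrArg Prod.snd h))
    have h1' : (1 : ℝ) ≤ (nrm (f, g) : ℤ) := by exact_mod_cast h1
    have h2 : ((nrm (f, g) : ℤ) : ℝ) ≤
        (N : ℝ) ^ n * (1 / 2 + 4 ^ N.primeFactors.card) / ((nrm v : ℤ) : ℝ) := by
      rw [le_div_iff₀ (by linarith)]
      have h3 : (2 : ℝ) * (nrm v : ℤ) * (nrm u : ℤ) ≤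
          (1 + 2 * 4 ^ N.primeFactors.card) * (N : ℝ) ^ n := by exact_mod_cast hu2
      have h4 : ((nrm (f, g) : ℤ) : ℝ) ≤ (nrm u : ℤ) := by exact_mod_cast hnle
      nlinarith
    have h3 := Real.logb_le_logb_of_le hN1 (by linarith) h2
    rw [Real.logb_div (by positivity) (by positivity), Real.logb_mul (by positivity)
      (by positivity), Real.logb_pow, Real.logb_self_eq_one hN1] at h3
    linarith

/-- **The average complexity.** -/
theorem average {N : ℕ} (hN : 2 ≤ N) (n : ℕ) :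
    (n : ℝ) / 2 - Real.logb N (9 / 2) ≤ Efin N n ∧
    Efin N n ≤ (n : ℝ) / 2 + Real.logb N (9 / 2) +
      Real.logb N (1 / 2 + 4 ^ N.primeFactors.card) := by
  have hN1 : (1 : ℝ) < N := by exact_mod_cast (by omega : 1 < N)
  have hNn : (0 : ℝ) < (N : ℝ) ^ n := by positivity
  choose m hm hlow hup using fun a : Fin n → Fin N => complexity_bounds hN a
  have hS := sum_log_ge hN m hm
  have hcard : ∀ c : ℝ, ∑ _a : Fin n → Fin N, c = (N : ℝ) ^ n * c := by
    intro c
    rw [Finset.sum_const, Finset.card_univ, Fintype.card_fun, Fintype.card_fin, Fintype.card_fin,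
      nsmul_eq_mul]
    push_cast
    ring
  unfold Efin
  constructor
  · rw [le_div_iff₀ hNn]
    have h1 := Finset.sum_le_sum fun a (_ : a ∈ (Finset.univ : Finset (Fin n → Fin N))) => hlow a
    linarith
  · rw [div_le_iff₀ hNn]
    have h1 := Finset.sum_le_sum fun a (_ : a ∈ (Finset.univ : Finset (Fin n → Fin N))) => hup a
    rw [Finset.sum_add_distrib, Finset.sum_sub_distrib, hcard, hcard] at h1
    linarith

/-- The error term is at most `4 ω(N) / log N`. -/
theorem average_abs {N : ℕ} (hN : 2 ≤ N) (n : ℕ) :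
    |Efin N n - (n : ℝ) / 2| ≤ 4 * (N.primeFactors.card : ℝ) / Real.log N := by
  have hN1 : (1 : ℝ) < N := by exact_mod_cast (by omega : 1 < N)
  have hlog : 0 < Real.log N := Real.log_pos hN1
  obtain ⟨h1, h2⟩ := average hN n
  set k := N.primeFactors.card with hk
  have hk1 : 1 ≤ k := by
    rw [hk, Nat.succ_le_iff, Finset.card_pos]
    exact ⟨N.minFac, Nat.mem_primeFactors.2 ⟨Nat.minFac_prime (by omega), Nat.minFac_dvd N,
      by omega⟩⟩
  have hkr : (1 : ℝ) ≤ k := by exact_mod_cast hk1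
  have hl2 : Real.log 2 < 0.7 := lt_trans Real.log_two_lt_d9 (by norm_num)
  have hl4 : Real.log 4 = 2 * Real.log 2 := by
    rw [show (4 : ℝ) = 2 ^ 2 by norm_num, Real.log_pow]; push_cast; ring
  -- log(9/2) ≤ 9/4 log 2, i.e. (9/2)^4 ≤ 2^9
  have hA : Real.log (9 / 2) ≤ 9 / 4 * Real.log 2 := by
    have h3 : Real.log ((9 / 2) ^ 4) ≤ Real.log (2 ^ 9) :=
      Real.log_le_log (by norm_num) (by norm_num)
    rw [Real.log_pow, Real.log_pow] at h3
    push_cast at h3
    linarith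
  have hB : Real.log (1 / 2 + 4 ^ k) ≤ 1 / 4 * Real.log 2 + k * Real.log 4 := by
    have h3 : (1 / 2 + 4 ^ k : ℝ) ≤ (9 / 8) * 4 ^ k := by
      have : (4 : ℝ) ≤ 4 ^ k := by
        calc (4 : ℝ) = 4 ^ 1 := by norm_num
          _ ≤ 4 ^ k := pow_le_pow_right₀ (by norm_num) hk1
      linarith
    have h4 := Real.log_le_log (by positivity) h3
    rw [Real.log_mul (by norm_num) (by positivity), Real.log_pow] at h4
    have h5 : Real.log ((9 / 8) ^ 4) ≤ Real.log 2 := Real.log_le_log (by norm_num) (by norm_num)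
    rw [Real.log_pow] at h5
    push_cast at h5
    linarith
  have hl0 : 0 < Real.log 2 := Real.log_pos (by norm_num)
  have e1 : Real.logb N (9 / 2) ≤ (9 / 4 * Real.log 2) / Real.log N := by
    unfold Real.logb; gcongr
  have e2 : Real.logb N (1 / 2 + 4 ^ k) ≤ (1 / 4 * Real.log 2 + k * Real.log 4) / Real.log N := by
    unfold Real.logb; gcongr
  have e3 : (9 / 4 * Real.log 2) / Real.log N + (1 / 4 * Real.log 2 + k * Real.log 4) / Real.log N
      ≤ 4 * (k : ℝ) / Real.log N := by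
    rw [← add_div, hl4]
    gcongr
    nlinarith
  have e4 : 0 ≤ (1 / 4 * Real.log 2 + k * Real.log 4) / Real.log N := by
    rw [hl4]; positivity
  rw [abs_le]
  constructor <;> linarith

/-- `ω(N)` is small compared with `log N`. -/
theorem card_primeFactors_le (N B : ℕ) (hN : N ≠ 0) (hB : 2 ≤ B) :
    (N.primeFactors.card : ℝ) ≤ B + Real.log N / Real.log B := by
  classical
  have hlogB : 0 < Real.log B := Real.log_pos (by exact_mod_cast (by omega : 1 < B))
  obtain ⟨F, hF⟩ : ∃ F : Finset ℕ, F = N.primeFactors.filter (fun p => B ≤ p) := ⟨_, rfl⟩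
  have h1 : N.primeFactors.card ≤ B + F.card := by
    rw [← Finset.card_filter_add_card_filter_not (s := N.primeFactors) (fun p => p < B)]
    refine Nat.add_le_add ?_ (le_of_eq ?_)
    · calc _ ≤ (range B).card := Finset.card_le_card fun p hp => by
            rw [mem_filter] at hp; exact mem_range.2 hp.2
        _ = B := card_range B
    · rw [hF]
      congr 1
      ext p
      simp only [mem_filter, not_lt]
  have h2 : B ^ F.card ≤ N := by
    calc B ^ F.card = ∏ _p ∈ F, B := by rw [prod_const]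
      _ ≤ ∏ p ∈ F, p := prod_le_prod' fun p hp => by
        rw [hF] at hp; exact (mem_filter.1 hp).2
      _ ≤ ∏ p ∈ N.primeFactors, p := by
        refine prod_le_prod_of_subset_of_one_le' ?_ fun p hp _ =>
          (Nat.prime_of_mem_primeFactors hp).one_lt.le
        rw [hF]; exact filter_subset _ _
      _ ≤ N := Nat.le_of_dvd (Nat.pos_of_ne_zero hN) (Nat.prod_primeFactors_dvd N)
  have h3 : (F.card : ℝ) * Real.log B ≤ Real.log N := by
    rw [← Real.log_pow]
    exact Real.log_le_log (by positivity) (by exact_mod_cast h2)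
  have h4 : (F.card : ℝ) ≤ Real.log N / Real.log B := by
    rw [le_div_iff₀ hlogB]; exact h3
  have h5 : (N.primeFactors.card : ℝ) ≤ B + F.card := by exact_mod_cast h1
  linarith

/-- The error tends to `0` as `N → ∞`, uniformly in `n`. -/
theorem average_uniform (ε : ℝ) (hε : 0 < ε) : ∃ N₀ : ℕ, ∀ N : ℕ, N₀ ≤ N → ∀ n : ℕ,
    |Efin N n - (n : ℝ) / 2| ≤ ε := by
  have t1 : Filter.Tendsto (fun B : ℕ => Real.log (B : ℝ)) Filter.atTop Filter.atTop :=
    Real.tendsto_log_atTop.comp tendsto_natCast_atTop_atTop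
  obtain ⟨B, hB1, hB2⟩ := ((t1.eventually_ge_atTop (8 / ε)).and
    (Filter.eventually_ge_atTop 2)).exists
  obtain ⟨N₀, hN₀⟩ := Filter.eventually_atTop.1 ((t1.eventually_ge_atTop (8 * B / ε)).and
    (Filter.eventually_ge_atTop 2))
  refine ⟨N₀, fun N hN n => ?_⟩
  obtain ⟨h1, h2⟩ := hN₀ N hN
  have hlogN : 0 < Real.log N := Real.log_pos (by exact_mod_cast (by omega : 1 < N))
  have hlogB : 0 < Real.log B := Real.log_pos (by exact_mod_cast (by omega : 1 < B))
  refine (average_abs h2 n).trans ?_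
  have h3 := card_primeFactors_le N B (by omega) hB2
  rw [div_le_iff₀ hlogN]
  rw [div_le_iff₀ hε] at h1
  rw [div_le_iff₀ hε] at hB1
  have h4 : Real.log N / Real.log B * 8 ≤ ε * Real.log N := by
    rw [div_mul_eq_mul_div, div_le_iff₀ hlogB]
    nlinarith
  nlinarith

end Pool.Agent.H78R3.Nad
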